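import Mathlib
import Pool.Agent.Helper41.MVC.SphOn

set_option autoImplicit false

namespace Pool.Agent.Results.MP_88aa81_an.Classification

open MeasureTheory Metric Set

/-- `M(x)`: the mean value of `y ↦ ‖x - y‖^(2-n)` over the unit sphere of `ℝⁿ` with respect to
the surface measure `volume.toSphere` (the average `⨍` divides by the total mass). -/
noncomputable def sphereMean (n : ℕ) (x : EuclideanSpace ℝ (Fin n)) : ℝ :=
  ⨍ y : sphere (0 : EuclideanSpace ℝ (Fin n)) 1, ‖x - (y : EuclideanSpace ℝ (Fin n))‖ ^ (2 - (n : ℝ))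
    ∂(volume : Measure (EuclideanSpace ℝ (Fin n))).toSphere

/-- the mean-value property: for every `x` outside `Ω` the mean of `y ↦ ‖x - y‖^(2-n)` over `Ω`
(Lebesgue measure) equals `M(x)`. -/
def HasMeanValueProperty (n : ℕ) (Ω : Set (EuclideanSpace ℝ (Fin n))) : Prop :=
  ∀ x, x ∉ Ω →
    ((volume : Measure (EuclideanSpace ℝ (Fin n))).real Ω)⁻¹ * ∫ y in Ω, ‖x - y‖ ^ (2 - (n : ℝ))
      = sphereMean n x

/-- annuli: `{x | r₁ < ‖x‖ < r₂}` for reals `r₁ < r₂` (negative `r₁` allowed, so that centred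
open balls count as annuli). -/
def IsAnnulus (n : ℕ) (Ω : Set (EuclideanSpace ℝ (Fin n))) : Prop :=
  ∃ r₁ r₂ : ℝ, r₁ < r₂ ∧ Ω = {x | r₁ < ‖x‖ ∧ ‖x‖ < r₂}

theorem sphereMean_eq {n : ℕ} (hn : 3 ≤ n) (x : EuclideanSpace ℝ (Fin n)) :
    sphereMean n x = (max 1 ‖x‖) ^ (2 - (n : ℝ)) := by
  have hn' : 3 ≤ Module.finrank ℝ (EuclideanSpace ℝ (Fin n)) := by simpa using hn
  have h := Helper41.MVC.integral_kernel_unit hn' x
  have e : Helper41.ex (EuclideanSpace ℝ (Fin n)) = 2 - (n : ℝ) := by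
    simp [Helper41.ex]
  rw [e] at h
  unfold sphereMean
  rw [average_eq, h, smul_eq_mul, mul_comm ((max 1 ‖x‖) ^ (2 - (n : ℝ))), inv_mul_cancel_left₀]
  exact (Helper41.MVC.sph_univ_pos hn').ne'

theorem hasMVP_iff {n : ℕ} (hn : 3 ≤ n) {Ω : Set (EuclideanSpace ℝ (Fin n))} (hΩ : IsOpen Ω)
    (hne : Ω.Nonempty) (hfin : (volume : Measure (EuclideanSpace ℝ (Fin n))) Ω < ⊤) :
    HasMeanValueProperty n Ω ↔ Helper41.MVC.MV Ω := by
  have hn' : 3 ≤ Module.finrank ℝ (EuclideanSpace ℝ (Fin n)) := by simpa using hn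
  have e : Helper41.ex (EuclideanSpace ℝ (Fin n)) = 2 - (n : ℝ) := by
    simp [Helper41.ex]
  have hm : 0 < (volume : Measure (EuclideanSpace ℝ (Fin n))).real Ω :=
    ENNReal.toReal_pos (hΩ.measure_pos volume hne).ne' hfin.ne
  unfold HasMeanValueProperty Helper41.MVC.MV Helper41.MVC.U
  rw [e]
  refine forall_congr' fun x => imp_congr_right fun _ => ?_
  rw [sphereMean_eq hn, inv_mul_eq_iff_eq_mul₀ hm.ne']

/-- For every dimension `n ≥ 3`: an open nonempty set of finite measure has the mean-value property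
if and only if it is a centred ball of radius `r ≥ 1` minus a closed subset of the sphere
`(n - 2) ‖x‖ ^ 2 = n r ^ 2 - 2 r ^ n`, or a centred annulus with `0 < r₁ < r₂` and
`n r₁ ^ 2 - 2 r₁ ^ n = n r₂ ^ 2 - 2 r₂ ^ n`; and some set with the property is not an annulus. -/
theorem result : ∀ n : ℕ, 3 ≤ n →
    (∀ Ω : Set (EuclideanSpace ℝ (Fin n)), IsOpen Ω → Ω.Nonempty →
      (volume : Measure (EuclideanSpace ℝ (Fin n))) Ω < ⊤ →
      (HasMeanValueProperty n Ω ↔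
        (∃ (r : ℝ) (K : Set (EuclideanSpace ℝ (Fin n))), 1 ≤ r ∧ IsClosed K ∧
          (∀ x ∈ K, ((n : ℝ) - 2) * ‖x‖ ^ 2 = n * r ^ 2 - 2 * r ^ n) ∧ Ω = ball 0 r \ K) ∨
        (∃ r₁ r₂ : ℝ, 0 < r₁ ∧ r₁ < r₂ ∧
          (n : ℝ) * r₁ ^ 2 - 2 * r₁ ^ n = n * r₂ ^ 2 - 2 * r₂ ^ n ∧
          Ω = {x | r₁ < ‖x‖ ∧ ‖x‖ < r₂}))) ∧
    ∃ Ω : Set (EuclideanSpace ℝ (Fin n)), IsOpen Ω ∧ Ω.Nonempty ∧
      (volume : Measure (EuclideanSpace ℝ (Fin n))) Ω < ⊤ ∧
      HasMeanValueProperty n Ω ∧ ¬ IsAnnulus n Ω := by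
  intro n hn
  have hn' : 3 ≤ Module.finrank ℝ (EuclideanSpace ℝ (Fin n)) := by simpa using hn
  have hfr : Module.finrank ℝ (EuclideanSpace ℝ (Fin n)) = n := finrank_euclideanSpace_fin
  have hnR : (3 : ℝ) ≤ n := by exact_mod_cast hn
  have hn2 : (0 : ℝ) < (n : ℝ) - 2 := by linarith
  have hnt : Nontrivial (EuclideanSpace ℝ (Fin n)) :=
    Module.nontrivial_of_finrank_pos (R := ℝ) (by rw [finrank_euclideanSpace_fin]; omega)
  have hball : ∀ (r : ℝ) (K : Set (EuclideanSpace ℝ (Fin n))), 1 ≤ r →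
      (∀ x ∈ K, ((n : ℝ) - 2) * ‖x‖ ^ 2 = n * r ^ 2 - 2 * r ^ n) →
      Helper41.MVC.MV (ball (0 : EuclideanSpace ℝ (Fin n)) r \ K) := by
    intro r K hr hK
    apply Helper41.MVC.MV_ball hn' hr
    intro x hx
    rw [hfr]
    exact hK x hx
  constructor
  · intro Ω hΩ hne hfin
    rw [hasMVP_iff hn hΩ hne hfin]
    constructor
    · intro hMV
      rcases Helper41.MVC.classify hn' hΩ hne hfin.ne hMV with ⟨r, K, hr, hKc, hK, hΩe⟩ | ⟨r₁, r₂, h1, h2, h3, hΩe⟩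
      · left
        refine ⟨r, K, hr, hKc, fun x hx => ?_, hΩe⟩
        have := hK x hx
        rw [hfr] at this
        exact this
      · right
        refine ⟨r₁, r₂, h1, h2, ?_, hΩe⟩
        rw [hfr] at h3
        exact h3
    · rintro (⟨r, K, hr, hKc, hK, hΩe⟩ | ⟨r₁, r₂, h1, h2, h3, hΩe⟩)
      · rw [hΩe]
        exact hball r K hr hK
      · rw [hΩe]
        have := Helper41.MVC.MV_shell hn' h1 h2 (by rw [hfr]; exact h3)
        exact this
  · -- an example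
    have hcont : Continuous fun t : ℝ => n * t ^ 2 - 2 * t ^ n := by fun_prop
    have h1 : (0 : ℝ) < n * 1 ^ 2 - 2 * 1 ^ n := by rw [one_pow, one_pow]; linarith
    obtain ⟨r, hr1, hrpos⟩ : ∃ r : ℝ, 1 < r ∧ 0 < n * r ^ 2 - 2 * r ^ n := by
      have h2 : ∀ᶠ t : ℝ in nhds (1 : ℝ), 0 < n * t ^ 2 - 2 * t ^ n :=
        (hcont.tendsto 1).eventually (lt_mem_nhds h1)
      have h3 : ∀ᶠ t : ℝ in nhdsWithin (1 : ℝ) (Ioi 1), 0 < n * t ^ 2 - 2 * t ^ n :=
        h2.filter_mono nhdsWithin_le_nhds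
      have h4 : ∀ᶠ t : ℝ in nhdsWithin (1 : ℝ) (Ioi 1), 1 < t := eventually_mem_nhdsWithin
      obtain ⟨r, hr⟩ := (h4.and h3).exists
      exact ⟨r, hr⟩
    have hlt : n * r ^ 2 - 2 * r ^ n < (n : ℝ) - 2 := by
      have h := Helper41.MVC.hh_strictAnti hn (show (1 : ℝ) ∈ Ici 1 from le_refl (1 : ℝ))
        (show r ∈ Ici (1 : ℝ) from hr1.le) hr1
      rw [Helper41.MVC.hh_one] at h
      exact h
    set s : ℝ := Real.sqrt ((n * r ^ 2 - 2 * r ^ n) / (n - 2)) with hs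
    have hs0 : 0 < s := Real.sqrt_pos.mpr (by positivity)
    have hs2 : s ^ 2 = (n * r ^ 2 - 2 * r ^ n) / (n - 2) := Real.sq_sqrt (by positivity)
    have hs1 : s < 1 := by
      rw [hs, Real.sqrt_lt' one_pos, one_pow, div_lt_one hn2]
      exact hlt
    obtain ⟨p, hp⟩ : ∃ p : EuclideanSpace ℝ (Fin n), ‖p‖ = s := exists_norm_eq _ hs0.le
    have hr0 : 0 < r := by linarith
    have hp0 : (0 : EuclideanSpace ℝ (Fin n)) ≠ p := by
      rintro rfl
      rw [norm_zero] at hp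
      linarith
    have h0mem : (0 : EuclideanSpace ℝ (Fin n)) ∈ ball (0 : EuclideanSpace ℝ (Fin n)) r \ {p} :=
      ⟨mem_ball_self hr0, fun h => hp0 h⟩
    have hopen : IsOpen (ball (0 : EuclideanSpace ℝ (Fin n)) r \ {p}) := isOpen_ball.sdiff isClosed_singleton
    have hfin : (volume : Measure (EuclideanSpace ℝ (Fin n))) (ball 0 r \ {p}) < ⊤ :=
      lt_of_le_of_lt (measure_mono sdiff_subset) measure_ball_lt_top
    refine ⟨ball 0 r \ {p}, hopen, ⟨0, h0mem⟩, hfin, ?_, ?_⟩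
    · rw [hasMVP_iff hn hopen ⟨0, h0mem⟩ hfin]
      apply hball r {p} hr1.le
      intro x hx
      rw [mem_singleton_iff] at hx
      rw [hx, hp, hs2]
      field_simp
    · rintro ⟨r₁, r₂, h12, hΩ⟩
      have h0 : (0 : EuclideanSpace ℝ (Fin n)) ∈ {x : EuclideanSpace ℝ (Fin n) | r₁ < ‖x‖ ∧ ‖x‖ < r₂} := by
        rw [← hΩ]; exact h0mem
      have hr1' : r₁ < 0 := by simpa using h0.1
      have hqn : ‖(s⁻¹ : ℝ) • p‖ = 1 := by
        rw [norm_smul, hp, norm_inv, Real.norm_of_nonneg hs0.le, inv_mul_cancel₀ hs0.ne']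
      have hq : ((s⁻¹ : ℝ) • p) ∈ {x : EuclideanSpace ℝ (Fin n) | r₁ < ‖x‖ ∧ ‖x‖ < r₂} := by
        rw [← hΩ]
        refine ⟨mem_ball_zero_iff.mpr (by rw [hqn]; exact hr1), fun h => ?_⟩
        rw [mem_singleton_iff] at h
        rw [h, hp] at hqn
        linarith
      have h2 : 1 < r₂ := by
        have := hq.2
        rwa [hqn] at this
      have hpm : p ∈ {x : EuclideanSpace ℝ (Fin n) | r₁ < ‖x‖ ∧ ‖x‖ < r₂} := by
        refine ⟨by linarith [norm_nonneg p], ?_⟩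
        rw [hp]; linarith
      rw [← hΩ] at hpm
      exact hpm.2 rfl

end Pool.Agent.Results.MP_88aa81_an.Classification
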